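import Mathlib

set_option autoImplicit false

open MeasureTheory ProbabilityTheory
open scoped ENNReal

namespace Pool.Agent.Lib.MP_988dcd_pr

/-- the parameter `1/2` -/
noncomputable def half : unitInterval := ⟨1 / 2, by norm_num, by norm_num⟩

/-- the law of infinitely many fair coin tosses -/
noncomputable def coin : Measure (ℕ → Bool) :=
  Measure.infinitePi (fun _ : ℕ => bernoulliMeasure true false half)

instance : IsProbabilityMeasure coin := by unfold coin; infer_instance

lemma fair_apply (b : Bool) : (bernoulliMeasure true false half) {b} = 1 / 2 := by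
  have h1 : (bernoulliMeasure true false half).real {b} = 1 / 2 := by
    rw [bernoulliMeasure_real_apply half (measurableSet_singleton b)]
    cases b <;> simp [half] <;> norm_num
  rw [measureReal_def] at h1
  rw [← ENNReal.ofReal_toReal (measure_ne_top _ {b}), h1]
  rw [ENNReal.ofReal_div_of_pos (by norm_num)]
  simp

lemma coin_cyl (k r : ℕ) (u : ℕ → Bool) :
    coin {ω | ∀ i < r, ω (k + i) = u i} = (1 / 2) ^ r := by
  have h1 : {ω : ℕ → Bool | ∀ i < r, ω (k + i) = u i} =
      Set.pi (Finset.Ico k (k + r) : Finset ℕ) (fun j => {u (j - k)}) := by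
    ext ω
    simp only [Set.mem_ofPred_eq, Set.mem_pi, Finset.coe_Ico, Set.mem_Ico, Set.mem_singleton_iff]
    constructor
    · intro h j hj
      have := h (j - k) (by omega)
      rwa [show k + (j - k) = j by omega] at this
    · intro h i hi
      have := h (k + i) (by omega)
      rwa [show k + i - k = i by omega] at this
  rw [h1]
  unfold coin
  rw [Measure.infinitePi_pi _ (fun j _ => measurableSet_singleton _)]
  simp only [fair_apply]
  rw [Finset.prod_const]
  simp

/-- an event depending on the first `k` coordinates is independent of a cylinder beyond `k` -/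
lemma cyl_mul (E : Set (ℕ → Bool)) (k r : ℕ)
    (hE : ∀ ω ω' : ℕ → Bool, (∀ i < k, ω i = ω' i) → ω ∈ E → ω' ∈ E) (u : ℕ → Bool) :
    coin (E ∩ {ω | ∀ i < r, ω (k + i) = u i}) = coin E * (1 / 2) ^ r := by
  have hind : iIndepFun (fun (i : ℕ) (ω : ℕ → Bool) => ω i) coin :=
    iIndepFun_infinitePi (Ω := fun _ : ℕ => Bool) (X := fun _ b => b) (fun i => measurable_id)
  have h2 := hind.indepFun_finset (Finset.range k) (Finset.Ico k (k + r)) (by
    rw [Finset.disjoint_left]; intro i hi hi'; simp at hi hi'; omega) (fun i => measurable_pi_apply i)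
  set f : (ℕ → Bool) → (Finset.range k → Bool) := fun ω i => ω i with hf
  set g : (ℕ → Bool) → (Finset.Ico k (k + r) → Bool) := fun ω i => ω i with hg
  have hE1 : E = f ⁻¹' (f '' E) := by
    apply Set.Subset.antisymm (Set.subset_preimage_image f E)
    rintro ω ⟨ω', hω', hfe⟩
    apply hE ω' ω _ hω'
    intro i hi
    exact congrFun hfe ⟨i, by simpa using hi⟩
  set C : Set (ℕ → Bool) := {ω | ∀ i < r, ω (k + i) = u i} with hC
  have hC1 : C = g ⁻¹' (g '' C) := by
    apply Set.Subset.antisymm (Set.subset_preimage_image g C)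
    rintro ω ⟨ω', hω', hfe⟩ i hi
    have := congrFun hfe ⟨k + i, by simp; omega⟩
    simp only [hg] at this
    rw [← this]
    exact hω' i hi
  have h3 := h2.measure_inter_preimage_eq_mul (f '' E) (g '' C)
    (Set.toFinite _).measurableSet (Set.toFinite _).measurableSet
  rw [← coin_cyl k r u]
  conv_lhs => rw [hE1, hC1]
  rw [h3]
  congr 1
  · conv_rhs => rw [hE1]
  · conv_rhs => rw [← hC, hC1]

/-- occurrence of a word starting at time `t` -/
def occ {n : ℕ} (A : Fin n → Bool) (ω : ℕ → Bool) (t : ℕ) : Prop :=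
  ∀ i : Fin n, ω (t + i) = A i

/-- `B` appears before `A` -/
def before {n : ℕ} (B A : Fin n → Bool) : Set (ℕ → Bool) :=
  {ω | ∃ t, occ B ω t ∧ ∀ s ≤ t, ¬ occ A ω s}

/-- `X` matches `Y` after a shift by `r`: the last `n - r` letters of `X` are the first `n - r`
letters of `Y` -/
def ovs {n : ℕ} (X Y : Fin n → Bool) (r : ℕ) : Prop :=
  ∀ i j : Fin n, (i : ℕ) = r + j → X i = Y j

instance {n : ℕ} (X Y : Fin n → Bool) (r : ℕ) : Decidable (ovs X Y r) := by
  unfold ovs; infer_instance

/-- Conway's leading number -/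
def lead {n : ℕ} (X Y : Fin n → Bool) : ℕ :=
  ∑ r ∈ Finset.range n, if ovs X Y r then 2 ^ (n - 1 - r) else 0

section
variable {n : ℕ} (A B : Fin n → Bool)

/-- first occurrence of `X ∈ {A, B}` at `t`, none of `A`, `B` before -/
def DD (X : Fin n → Bool) (t : ℕ) : Set (ℕ → Bool) :=
  {ω | occ X ω t ∧ ∀ s < t, ¬ occ A ω s ∧ ¬ occ B ω s}

/-- no completed occurrence within the first `m` tosses -/
def SS (m : ℕ) : Set (ℕ → Bool) := {ω | ∀ s, s + n ≤ m → ¬ occ A ω s ∧ ¬ occ B ω s}

lemma occ_local (X : Fin n → Bool) {ω ω' : ℕ → Bool} {t k : ℕ} (h : ∀ i < k, ω i = ω' i)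
    (htk : t + n ≤ k) : occ X ω t ↔ occ X ω' t := by
  unfold occ
  constructor
  · intro ho i
    rw [← h (t + i) (by omega)]; exact ho i
  · intro ho i
    rw [h (t + i) (by omega)]; exact ho i

lemma DD_local (X : Fin n → Bool) (t : ℕ) (ω ω' : ℕ → Bool) (h : ∀ i < t + n, ω i = ω' i)
    (hω : ω ∈ DD A B X t) : ω' ∈ DD A B X t := by
  refine ⟨(occ_local X h le_rfl).mp hω.1, fun s hs => ?_⟩
  have := hω.2 s hs
  rw [← occ_local A h (by omega), ← occ_local B h (by omega)]
  exact this

lemma SS_local (m : ℕ) (ω ω' : ℕ → Bool) (h : ∀ i < m, ω i = ω' i)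
    (hω : ω ∈ SS A B m) : ω' ∈ SS A B m := by
  intro s hs
  have := hω s hs
  rw [← occ_local A h hs, ← occ_local B h hs]
  exact this

lemma local_measurable {E : Set (ℕ → Bool)} {k : ℕ}
    (hE : ∀ ω ω' : ℕ → Bool, (∀ i < k, ω i = ω' i) → ω ∈ E → ω' ∈ E) : MeasurableSet E := by
  set f : (ℕ → Bool) → (Finset.range k → Bool) := fun ω i => ω i with hf
  have hE1 : E = f ⁻¹' (f '' E) := by
    apply Set.Subset.antisymm (Set.subset_preimage_image f E)
    rintro ω ⟨ω', hω', hfe⟩
    apply hE ω' ω _ hω'
    intro i hi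
    exact congrFun hfe ⟨i, by simpa using hi⟩
  rw [hE1]
  have hfm : Measurable f := by
    apply measurable_pi_lambda
    intro i
    exact measurable_pi_apply _
  exact hfm (Set.toFinite _).measurableSet

lemma occ_eq_cyl (X : Fin n → Bool) (t : ℕ) :
    {ω | occ X ω t} = {ω : ℕ → Bool | ∀ i < n, ω (t + i) = (fun i => if h : i < n then X ⟨i, h⟩ else false) i} := by
  ext ω
  simp only [Set.mem_ofPred_eq, occ]
  constructor
  · intro h i hi
    rw [dif_pos hi]; exact h ⟨i, hi⟩
  · intro h i
    have := h i i.2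
    rw [dif_pos i.2] at this
    exact this

/-- `P(S_m ∩ {Y at m}) = P(S_m) 2^{-n}` -/
lemma SS_inter (Y : Fin n → Bool) (m : ℕ) :
    coin (SS A B m ∩ {ω | occ Y ω m}) = coin (SS A B m) * (1 / 2) ^ n := by
  rw [occ_eq_cyl]
  exact cyl_mul _ m n (SS_local A B m) _

/-- `P(D_t^X ∩ {Y at t + r}) = P(D_t^X) 2^{-r} [overlap]` -/
lemma DD_inter (X Y : Fin n → Bool) (t r : ℕ) (hr : r < n) :
    coin (DD A B X t ∩ {ω | occ Y ω (t + r)}) =
      coin (DD A B X t) * (if ovs X Y r then (1 / 2) ^ r else 0) := by
  split_ifs with hov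
  · have h1 : DD A B X t ∩ {ω | occ Y ω (t + r)} = DD A B X t ∩
        {ω : ℕ → Bool | ∀ i < r, ω (t + n + i) =
          (fun i => if h : n - r + i < n then Y ⟨n - r + i, h⟩ else false) i} := by
      ext ω
      simp only [Set.mem_inter_iff, Set.mem_ofPred_eq]
      constructor
      · rintro ⟨hD, ho⟩
        refine ⟨hD, fun i hi => ?_⟩
        have hlt : n - r + i < n := by omega
        rw [dif_pos hlt]
        have := ho ⟨n - r + i, hlt⟩
        rw [← this]
        congr 1
        simp only
        omega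
      · rintro ⟨hD, ho⟩
        refine ⟨hD, fun j => ?_⟩
        by_cases hj : (j : ℕ) < n - r
        · have h2 := hD.1 ⟨r + j, by omega⟩
          have h3 := hov ⟨r + j, by omega⟩ j rfl
          rw [← h3, ← h2]
          congr 1
          simp only
          omega
        · have h2 := ho (j - (n - r)) (by omega)
          have hlt : n - r + (j - (n - r)) < n := by omega
          rw [dif_pos hlt] at h2
          have e1 : t + n + (j - (n - r)) = t + r + j := by omega
          rw [e1] at h2
          rw [h2]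
          congr 1
          ext
          simp only
          omega
    rw [h1]
    exact cyl_mul _ (t + n) r (DD_local A B X t) _
  · rw [mul_zero]
    have : DD A B X t ∩ {ω | occ Y ω (t + r)} = ∅ := by
      rw [Set.eq_empty_iff_forall_notMem]
      rintro ω ⟨hD, ho⟩
      apply hov
      intro i j hij
      have h1 := hD.1 i
      have h2 := ho j
      rw [← h1, ← h2]
      congr 1
      omega
    rw [this, measure_empty]

/-- the overlap weights -/
noncomputable def cw (X Y : Fin n → Bool) (r : ℕ) : ℝ≥0∞ := if ovs X Y r then (1 / 2) ^ r else 0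

variable {A B}

lemma DD_disj (hAB : A ≠ B) {X X' : Fin n → Bool} (hX : X = A ∨ X = B) (hX' : X' = A ∨ X' = B)
    {t t' : ℕ} {ω : ℕ → Bool} (h : ω ∈ DD A B X t) (h' : ω ∈ DD A B X' t') : t = t' ∧ X = X' := by
  have key : ∀ {X X' : Fin n → Bool} {t t' : ℕ}, (X = A ∨ X = B) → ω ∈ DD A B X t →
      ω ∈ DD A B X' t' → ¬ t < t' := by
    intro X X' t t' hX h h' hlt
    have := h'.2 t hlt
    rcases hX with rfl | rfl
    · exact this.1 h.1
    · exact this.2 h.1
  have h1 := key hX h h'
  have h2 := key hX' h' h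
  have ht : t = t' := by omega
  subst ht
  refine ⟨rfl, ?_⟩
  funext i
  rw [← h.1 i, ← h'.1 i]

lemma SS_decomp (hAB : A ≠ B) (Y : Fin n → Bool) (hY : Y = A ∨ Y = B) (m : ℕ) :
    coin (SS A B m ∩ {ω | occ Y ω m}) = ∑ r ∈ Finset.range n, if r ≤ m then
      (coin (DD A B A (m - r)) * cw A Y r + coin (DD A B B (m - r)) * cw B Y r) else 0 := by
  classical
  set T : ℕ × Bool → Set (ℕ → Bool) := fun p =>
    if p.1 ≤ m then DD A B (if p.2 then A else B) (m - p.1) ∩ {ω | occ Y ω m} else ∅ with hT
  have hunion : SS A B m ∩ {ω | occ Y ω m} = ⋃ p ∈ (Finset.range n ×ˢ Finset.univ : Finset (ℕ × Bool)), T p := by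
    ext ω
    simp only [Set.mem_inter_iff, Set.mem_ofPred_eq, Set.mem_iUnion, Finset.mem_product,
      Finset.mem_range, Finset.mem_univ, and_true, exists_prop]
    constructor
    · rintro ⟨hS, ho⟩
      have hex : ∃ t, occ A ω t ∨ occ B ω t := by
        rcases hY with rfl | rfl
        · exact ⟨m, Or.inl ho⟩
        · exact ⟨m, Or.inr ho⟩
      have hmin : ∀ s, s < Nat.find hex → ¬ occ A ω s ∧ ¬ occ B ω s := by
        intro s hs
        have := Nat.find_min hex hs
        tauto
      have hle : Nat.find hex ≤ m := by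
        apply Nat.find_min'
        rcases hY with rfl | rfl
        · exact Or.inl ho
        · exact Or.inr ho
      have hspec := Nat.find_spec hex
      set t := Nat.find hex
      have hr : m - t < n := by
        by_contra hcon
        have := hS t (by omega)
        tauto
      have e1 : m - (m - t) = t := by omega
      rcases hspec with hA | hB
      · refine ⟨(m - t, true), hr, ?_⟩
        simp only [hT]
        rw [if_pos (by omega : m - t ≤ m), if_true, e1]
        exact ⟨⟨hA, hmin⟩, ho⟩
      · refine ⟨(m - t, false), hr, ?_⟩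
        simp only [hT, Bool.false_eq_true, if_false]
        rw [if_pos (by omega : m - t ≤ m), e1]
        exact ⟨⟨hB, hmin⟩, ho⟩
    · rintro ⟨⟨r, b⟩, hr, hmem⟩
      simp only [hT] at hmem
      by_cases hrm : r ≤ m
      · rw [if_pos hrm] at hmem
        refine ⟨fun s hs => ?_, hmem.2⟩
        simp only at hr
        exact hmem.1.2 s (by omega)
      · rw [if_neg hrm] at hmem
        exact absurd hmem (Set.notMem_empty _)
  have hmeas : ∀ p, MeasurableSet (T p) := by
    intro p
    simp only [hT]
    split_ifs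
    · exact (local_measurable (DD_local A B A (m - p.1))).inter (local_measurable (k := m + n)
        (fun ω ω' h hω => (occ_local Y h le_rfl).mp hω))
    · exact (local_measurable (DD_local A B B (m - p.1))).inter (local_measurable (k := m + n)
        (fun ω ω' h hω => (occ_local Y h le_rfl).mp hω))
    · exact MeasurableSet.empty
  have hdisj : Set.PairwiseDisjoint (↑(Finset.range n ×ˢ Finset.univ : Finset (ℕ × Bool))) T := by
    rintro ⟨r, b⟩ _ ⟨r', b'⟩ _ hne
    rw [Function.onFun, Set.disjoint_left]
    intro ω h h'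
    simp only [hT] at h h'
    by_cases hrm : r ≤ m
    · by_cases hrm' : r' ≤ m
      · rw [if_pos hrm] at h
        rw [if_pos hrm'] at h'
        have := DD_disj hAB (by cases b <;> simp) (by cases b' <;> simp) h.1 h'.1
        apply hne
        have h1 : r = r' := by omega
        have h2 : b = b' := by
          have := this.2
          cases b <;> cases b' <;> simp_all
        rw [h1, h2]
      · rw [if_neg hrm'] at h'; exact absurd h' (Set.notMem_empty _)
    · rw [if_neg hrm] at h; exact absurd h (Set.notMem_empty _)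
  rw [hunion, measure_biUnion_finset hdisj (fun p _ => hmeas p), Finset.sum_product]
  apply Finset.sum_congr rfl
  intro r hr
  rw [Finset.mem_range] at hr
  simp only [Fintype.sum_bool, hT]
  by_cases hrm : r ≤ m
  · rw [if_pos hrm, if_pos hrm]
    simp only [if_true, Bool.false_eq_true, if_false]
    have e1 := DD_inter A B A Y (m - r) r hr
    have e2 := DD_inter A B B Y (m - r) r hr
    rw [show m - r + r = m by omega] at e1 e2
    rw [e1, e2, if_pos hrm]
    rfl
  · rw [if_neg hrm]
    simp only [if_neg hrm, measure_empty, add_zero]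

/-- total probabilities -/
noncomputable def pp (A B X : Fin n → Bool) : ℝ≥0∞ := ∑' t, coin (DD A B X t)

lemma tsum_shift (r : ℕ) (g : ℕ → ℝ≥0∞) : ∑' m, (if r ≤ m then g (m - r) else 0) = ∑' t, g t := by
  have hinj : Function.Injective (fun t : ℕ => t + r) := add_left_injective r
  have := hinj.tsum_eq (f := fun m => if r ≤ m then g (m - r) else 0) (by
    intro m hm
    rw [Function.mem_support] at hm
    have : r ≤ m := by
      by_contra hcon
      exact hm (if_neg hcon)
    exact ⟨m - r, by simp only; omega⟩)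
  rw [← this]
  apply tsum_congr
  intro t
  rw [if_pos (by omega)]
  congr 1; omega

/-- Conway's renewal identity -/
lemma renewal (hAB : A ≠ B) (Y : Fin n → Bool) (hY : Y = A ∨ Y = B) :
    (∑' m, coin (SS A B m)) * (1 / 2) ^ n =
      pp A B A * (∑ r ∈ Finset.range n, cw A Y r) + pp A B B * (∑ r ∈ Finset.range n, cw B Y r) := by
  rw [← ENNReal.tsum_mul_right]
  have h1 : ∀ m, coin (SS A B m) * (1 / 2) ^ n = ∑ r ∈ Finset.range n, if r ≤ m then
      (coin (DD A B A (m - r)) * cw A Y r + coin (DD A B B (m - r)) * cw B Y r) else 0 := by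
    intro m
    rw [← SS_inter A B Y m, SS_decomp hAB Y hY]
  simp_rw [h1]
  rw [Summable.tsum_finsetSum (fun _ _ => ENNReal.summable), Finset.mul_sum, Finset.mul_sum,
    ← Finset.sum_add_distrib]
  apply Finset.sum_congr rfl
  intro r _
  rw [tsum_shift r (fun t => coin (DD A B A t) * cw A Y r + coin (DD A B B t) * cw B Y r),
    ENNReal.tsum_add, ENNReal.tsum_mul_right, ENNReal.tsum_mul_right]
  rfl

lemma measurable_DD (X : Fin n → Bool) (t : ℕ) : MeasurableSet (DD A B X t) :=
  local_measurable (DD_local A B X t)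

lemma measurable_SS (m : ℕ) : MeasurableSet (SS A B m) := local_measurable (SS_local A B m)

lemma before_eq (hAB : A ≠ B) : coin (before B A) = pp A B B := by
  have h1 : before B A = ⋃ t, DD A B B t := by
    ext ω
    simp only [before, Set.mem_ofPred_eq, Set.mem_iUnion]
    constructor
    · rintro ⟨t, hB, hA⟩
      classical
      have hex : ∃ t, occ B ω t := ⟨t, hB⟩
      refine ⟨Nat.find hex, Nat.find_spec hex, fun s hs => ⟨?_, Nat.find_min hex hs⟩⟩
      apply hA
      have := Nat.find_min' hex hB
      omega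
    · rintro ⟨t, hB, hno⟩
      refine ⟨t, hB, fun s hs => ?_⟩
      rcases lt_or_eq_of_le hs with h | h
      · exact (hno s h).1
      · subst h
        intro hA
        apply hAB
        funext i
        rw [← hA i, ← hB i]
  rw [h1, measure_iUnion _ (fun t => measurable_DD B t)]
  · rfl
  · intro t t' htt
    rw [Function.onFun, Set.disjoint_left]
    intro ω h h'
    exact htt (DD_disj hAB (Or.inr rfl) (Or.inr rfl) h h').1

/-- almost sure termination -/
lemma total_one (hAB : A ≠ B) : pp A B A + pp A B B = 1 := by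
  have hppA : pp A B A ≤ 1 := by
    unfold pp
    rw [← measure_iUnion _ (fun t => measurable_DD A t)]
    · exact prob_le_one
    · intro t t' htt
      rw [Function.onFun, Set.disjoint_left]
      intro ω h h'
      exact htt (DD_disj hAB (Or.inl rfl) (Or.inl rfl) h h').1
  have hppB : pp A B B ≤ 1 := by
    rw [← before_eq hAB]; exact prob_le_one
  have hcw : ∀ X Y : Fin n → Bool, ∑ r ∈ Finset.range n, cw X Y r ≠ ⊤ := by
    intro X Y
    rw [ENNReal.sum_ne_top]
    intro r _
    unfold cw
    split_ifs
    · exact ENNReal.pow_ne_top (by simp)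
    · simp
  have hfin : (∑' m, coin (SS A B m)) ≠ ⊤ := by
    intro htop
    have h := renewal hAB A (Or.inl rfl)
    rw [htop, ENNReal.top_mul (by simp)] at h
    have : pp A B A * (∑ r ∈ Finset.range n, cw A A r) + pp A B B * (∑ r ∈ Finset.range n, cw B A r) ≠ ⊤ := by
      apply ENNReal.add_ne_top.mpr
      exact ⟨ENNReal.mul_ne_top (ne_top_of_le_ne_top (by simp) hppA) (hcw _ _),
        ENNReal.mul_ne_top (ne_top_of_le_ne_top (by simp) hppB) (hcw _ _)⟩
    exact this h.symm
  have hnull : coin (⋂ m, SS A B m) = 0 := by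
    by_contra hne
    apply hfin
    have hle : ∀ m : ℕ, coin (⋂ m, SS A B m) ≤ coin (SS A B m) :=
      fun m => measure_mono (Set.iInter_subset _ m)
    have h2 : ∑' _ : ℕ, coin (⋂ m, SS A B m) ≤ ∑' m, coin (SS A B m) := ENNReal.tsum_le_tsum hle
    rw [ENNReal.tsum_const_eq_top_of_ne_zero hne] at h2
    exact top_le_iff.mp h2
  have hcover : (Set.univ : Set (ℕ → Bool)) = ((⋃ t, DD A B A t) ∪ (⋃ t, DD A B B t)) ∪ ⋂ m, SS A B m := by
    ext ω
    simp only [Set.mem_univ, true_iff, Set.mem_union, Set.mem_iUnion, Set.mem_iInter]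
    by_cases hex : ∃ t, occ A ω t ∨ occ B ω t
    · classical
      left
      have hmin : ∀ s, s < Nat.find hex → ¬ occ A ω s ∧ ¬ occ B ω s := by
        intro s hs
        have := Nat.find_min hex hs
        tauto
      rcases Nat.find_spec hex with hA | hB
      · left; exact ⟨_, hA, hmin⟩
      · right; exact ⟨_, hB, hmin⟩
    · right
      intro m s _
      push Not at hex
      exact hex s
  have hUA : coin (⋃ t, DD A B A t) = pp A B A := by
    rw [measure_iUnion _ (fun t => measurable_DD A t)]
    · rfl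
    · intro t t' htt
      rw [Function.onFun, Set.disjoint_left]
      intro ω h h'
      exact htt (DD_disj hAB (Or.inl rfl) (Or.inl rfl) h h').1
  have hUB : coin (⋃ t, DD A B B t) = pp A B B := by
    rw [measure_iUnion _ (fun t => measurable_DD B t)]
    · rfl
    · intro t t' htt
      rw [Function.onFun, Set.disjoint_left]
      intro ω h h'
      exact htt (DD_disj hAB (Or.inr rfl) (Or.inr rfl) h h').1
  have hdAB : Disjoint (⋃ t, DD A B A t) (⋃ t, DD A B B t) := by
    rw [Set.disjoint_left]
    intro ω h h'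
    rw [Set.mem_iUnion] at h h'
    obtain ⟨t, ht⟩ := h
    obtain ⟨t', ht'⟩ := h'
    exact hAB (DD_disj hAB (Or.inl rfl) (Or.inr rfl) ht ht').2
  apply le_antisymm
  · rw [← hUA, ← hUB, ← measure_union hdAB (MeasurableSet.iUnion (fun t => measurable_DD B t))]
    exact prob_le_one
  · have h1 : (1 : ℝ≥0∞) = coin Set.univ := measure_univ.symm
    rw [h1, hcover]
    refine (measure_union_le _ _).trans ?_
    rw [hnull, add_zero]
    refine (measure_union_le _ _).trans ?_
    rw [hUA, hUB]

lemma sum_cw (hn : 1 ≤ n) (X Y : Fin n → Bool) :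
    (∑ r ∈ Finset.range n, cw X Y r).toReal * 2 ^ (n - 1) = (lead X Y : ℝ) := by
  rw [ENNReal.toReal_sum]
  · unfold lead
    rw [Finset.sum_mul]
    push_cast
    apply Finset.sum_congr rfl
    intro r hr
    rw [Finset.mem_range] at hr
    unfold cw
    split_ifs
    · rw [ENNReal.toReal_pow]
      simp only [one_div, ENNReal.toReal_inv, ENNReal.toReal_ofNat]
      have : n - 1 = (n - 1 - r) + r := by omega
      conv_lhs => rw [this]
      rw [pow_add]
      field_simp
      rw [← mul_pow]
      norm_num
    · simp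
  · intro r _
    unfold cw
    split_ifs
    · exact ENNReal.pow_ne_top (by simp)
    · simp

/-- **Conway's formula.** -/
theorem conway (hn : 1 ≤ n) (hAB : A ≠ B) :
    (coin (before B A)).toReal * (((lead A A : ℝ) - lead A B) + ((lead B B : ℝ) - lead B A)) =
      (lead A A : ℝ) - lead A B := by
  have h1 := renewal hAB A (Or.inl rfl)
  have h2 := renewal hAB B (Or.inr rfl)
  have h3 := total_one hAB
  have hcw : ∀ X Y : Fin n → Bool, ∑ r ∈ Finset.range n, cw X Y r ≠ ⊤ := by
    intro X Y
    rw [ENNReal.sum_ne_top]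
    intro r _
    unfold cw
    split_ifs
    · exact ENNReal.pow_ne_top (by simp)
    · simp
  have hA : pp A B A ≠ ⊤ := by
    intro h; rw [h] at h3; simp at h3
  have hB : pp A B B ≠ ⊤ := by
    intro h; rw [h] at h3; simp at h3
  have h4 : pp A B A * (∑ r ∈ Finset.range n, cw A A r) + pp A B B * (∑ r ∈ Finset.range n, cw B A r) =
      pp A B A * (∑ r ∈ Finset.range n, cw A B r) + pp A B B * (∑ r ∈ Finset.range n, cw B B r) := by
    rw [← h1, ← h2]
  have h5 := congrArg ENNReal.toReal h4
  rw [ENNReal.toReal_add (ENNReal.mul_ne_top hA (hcw _ _)) (ENNReal.mul_ne_top hB (hcw _ _)),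
    ENNReal.toReal_add (ENNReal.mul_ne_top hA (hcw _ _)) (ENNReal.mul_ne_top hB (hcw _ _)),
    ENNReal.toReal_mul, ENNReal.toReal_mul, ENNReal.toReal_mul, ENNReal.toReal_mul] at h5
  have h6 := congrArg ENNReal.toReal h3
  rw [ENNReal.toReal_add hA hB, ENNReal.toReal_one] at h6
  rw [before_eq hAB, ← sum_cw hn A A, ← sum_cw hn A B, ← sum_cw hn B B, ← sum_cw hn B A]
  set a := (pp A B A).toReal
  set b := (pp A B B).toReal
  set cAA := (∑ r ∈ Finset.range n, cw A A r).toReal
  set cAB := (∑ r ∈ Finset.range n, cw A B r).toReal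
  set cBA := (∑ r ∈ Finset.range n, cw B A r).toReal
  set cBB := (∑ r ∈ Finset.range n, cw B B r).toReal
  have ha : a = 1 - b := by linarith
  rw [ha] at h5
  linear_combination (2 ^ (n - 1)) * (-h5)

end

end Pool.Agent.Lib.MP_988dcd_pr
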