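import Mathlib
import Pool.Agent.Lib.MP_988dcd_pr.Conway

set_option autoImplicit false

open Finset

namespace Pool.Agent.Lib.MP_988dcd_pr

section
variable {n : ℕ}

/-- normalised leading number -/
noncomputable def LL (X Y : Fin n → Bool) : ℝ :=
  ∑ r ∈ range n, if ovs X Y r then (1 / 2 : ℝ) ^ r else 0

lemma lead_eq (hn : 1 ≤ n) (X Y : Fin n → Bool) : (lead X Y : ℝ) = 2 ^ (n - 1) * LL X Y := by
  unfold lead LL
  push_cast
  rw [Finset.mul_sum]
  apply Finset.sum_congr rfl
  intro r hr
  rw [Finset.mem_range] at hr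
  split_ifs
  · have : n - 1 = (n - 1 - r) + r := by omega
    conv_rhs => rw [this]
    rw [pow_add, mul_assoc, ← mul_pow]
    norm_num
  · simp

lemma conwayL (hn : 1 ≤ n) {A B : Fin n → Bool} (hAB : A ≠ B) :
    (coin (before B A)).toReal * ((LL A A - LL A B) + (LL B B - LL B A)) = LL A A - LL A B := by
  have h := conway hn hAB
  rw [lead_eq hn, lead_eq hn, lead_eq hn, lead_eq hn] at h
  have h2 : (2 : ℝ) ^ (n - 1) ≠ 0 := by positivity
  have h3 : (2 : ℝ) ^ (n - 1) * ((coin (before B A)).toReal * ((LL A A - LL A B) + (LL B B - LL B A))) =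
    (2 : ℝ) ^ (n - 1) * (LL A A - LL A B) := by linear_combination h
  exact mul_left_cancel₀ h2 h3

lemma ovs_zero (X Y : Fin n → Bool) : ovs X Y 0 ↔ X = Y := by
  unfold ovs
  constructor
  · intro h; funext i; exact h i i (by simp)
  · rintro rfl i j hij
    have : i = j := Fin.ext (by omega)
    rw [this]

/-- the tail of the leading number -/
noncomputable def LT (X Y : Fin n → Bool) : ℝ :=
  ∑ r ∈ Ico 1 n, if ovs X Y r then (1 / 2 : ℝ) ^ r else 0

lemma LL_split (hn : 1 ≤ n) (X Y : Fin n → Bool) : LL X Y = (if X = Y then 1 else 0) + LT X Y := by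
  unfold LL LT
  rw [Finset.range_eq_Ico, Finset.sum_eq_sum_Ico_succ_bot (by omega)]
  simp only [ovs_zero, pow_zero]

lemma LT_nonneg (X Y : Fin n → Bool) : 0 ≤ LT X Y := by
  unfold LT
  apply Finset.sum_nonneg
  intro r _
  split_ifs <;> positivity

lemma geom_Ico (k n : ℕ) (hk : k ≤ n) : ∑ r ∈ Ico k n, (1 / 2 : ℝ) ^ r = 2 * (1 / 2) ^ k - 2 * (1 / 2) ^ n := by
  induction n, hk using Nat.le_induction with
  | base => simp
  | succ n hkn ih =>
    rw [Finset.sum_Ico_succ_top hkn, ih, pow_succ]; ring

/-- bounding a weighted sum by its leading terms -/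
lemma sum_le_geom (k n : ℕ) (hk1 : 1 ≤ k) (hk : k ≤ n) (E : ℕ → Prop) [DecidablePred E]
    (hE : ∀ r, 1 ≤ r → r < k → ¬ E r) :
    ∑ r ∈ Ico 1 n, (if E r then (1 / 2 : ℝ) ^ r else 0) ≤ 2 * (1 / 2) ^ k := by
  rw [← Finset.sum_Ico_consecutive _ hk1 hk]
  have h1 : ∑ r ∈ Ico 1 k, (if E r then (1 / 2 : ℝ) ^ r else 0) = 0 := by
    apply Finset.sum_eq_zero
    intro r hr
    rw [Finset.mem_Ico] at hr
    rw [if_neg (hE r hr.1 hr.2)]
  have h2 : ∑ r ∈ Ico k n, (if E r then (1 / 2 : ℝ) ^ r else 0) ≤ ∑ r ∈ Ico k n, (1 / 2 : ℝ) ^ r := by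
    apply Finset.sum_le_sum
    intro r _
    split_ifs
    · exact le_rfl
    · positivity
  rw [geom_Ico k n hk] at h2
  rw [h1]
  have : (0 : ℝ) ≤ 2 * (1 / 2) ^ n := by positivity
  linarith

/-- the word restricted to its first `m` letters has period `q` -/
def per (m q : ℕ) (A : Fin n → Bool) : Prop :=
  ∀ i j : Fin n, (j : ℕ) = i + q → (j : ℕ) < m → A i = A j

instance (m q : ℕ) (A : Fin n → Bool) : Decidable (per m q A) := by unfold per; infer_instance

lemma ovs_self (A : Fin n → Bool) (r : ℕ) : ovs A A r ↔ per n r A := by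
  unfold ovs per
  constructor
  · intro h i j hij _
    exact (h j i (by omega)).symm
  · intro h i j hij
    exact (h j i (by omega) i.2).symm

/-- the candidate replies -/
def cand (x : Bool) (A : Fin n → Bool) : Fin n → Bool :=
  fun i => if (i : ℕ) = 0 then x else A ⟨i - 1, by omega⟩

lemma ovs_cand_left (x : Bool) (A : Fin n → Bool) (r : ℕ) (hr : 1 ≤ r) :
    ovs (cand x A) A r ↔ per (n - 1) (r - 1) A := by
  unfold ovs per cand
  constructor
  · intro h i j hij hj
    have := h ⟨j + 1, by omega⟩ i (by simp only; omega)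
    simp only [Nat.add_eq_zero_iff, one_ne_zero, and_false, if_false, Nat.add_sub_cancel] at this
    exact this.symm
  · intro h i j hij
    have hi0 : (i : ℕ) ≠ 0 := by omega
    rw [if_neg hi0]
    exact (h j ⟨i - 1, by omega⟩ (by simp only; omega) (by simp only; omega)).symm

lemma ovs_cand_right (x : Bool) (A : Fin n → Bool) (r : ℕ) (hr : 1 ≤ r) (hrn : r < n)
    (h : ovs A (cand x A) r) : A ⟨r, hrn⟩ = x ∧ per n (r + 1) A := by
  unfold ovs cand at h
  constructor
  · have := h ⟨r, hrn⟩ ⟨0, by omega⟩ (by simp)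
    simpa using this
  · intro i j hij hj
    have := h j ⟨i + 1, by omega⟩ (by simp only; omega)
    simp only [Nat.add_eq_zero_iff, one_ne_zero, and_false, if_false, Nat.add_sub_cancel] at this
    exact this.symm

lemma ovs_cand_self (x : Bool) (A : Fin n → Bool) (r : ℕ) (hr : 1 ≤ r) (hrn : r < n)
    (h : ovs (cand x A) (cand x A) r) : A ⟨r - 1, by omega⟩ = x ∧ per (n - 1) r A := by
  unfold ovs cand at h
  constructor
  · have := h ⟨r, hrn⟩ ⟨0, by omega⟩ (by simp)
    simp only [if_true] at this
    rw [if_neg (by omega)] at this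
    exact this
  · intro i j hij hj
    have := h ⟨j + 1, by omega⟩ ⟨i + 1, by omega⟩ (by simp only; omega)
    simp only [Nat.add_eq_zero_iff, one_ne_zero, and_false, if_false, Nat.add_sub_cancel] at this
    exact this.symm

/-! ### Counting words -/

lemma count_le (P : Finset (Fin n → Bool)) (J : Finset ℕ)
    (h : ∀ A ∈ P, ∀ B ∈ P, (∀ j ∈ J, ∀ hj : j < n, A ⟨j, hj⟩ = B ⟨j, hj⟩) → A = B) :
    P.card ≤ 2 ^ J.card := by
  classical
  set f : (Fin n → Bool) → (J → Bool) := fun A j => if hj : (j : ℕ) < n then A ⟨j, hj⟩ else false with hf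
  have h1 : P.card ≤ (Finset.univ : Finset (J → Bool)).card := by
    apply Finset.card_le_card_of_injOn f (fun _ _ => Finset.mem_coe.mpr (Finset.mem_univ _))
    intro A hA B hB hfe
    apply h A hA B hB
    intro j hj hjn
    have := congrFun hfe ⟨j, hj⟩
    simp only [hf] at this
    rw [dif_pos hjn, dif_pos hjn] at this
    exact this
  refine h1.trans (le_of_eq ?_)
  rw [Finset.card_univ, Fintype.card_fun, Fintype.card_bool, Fintype.card_coe]

lemma per_mod {m q : ℕ} (hq : 1 ≤ q) {A : Fin n → Bool} (hA : per m q A) (hmn : m ≤ n) :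
    ∀ i : ℕ, ∀ hi : i < m, A ⟨i, by omega⟩ = A ⟨i % q, by
      have := Nat.mod_le i q; omega⟩ := by
  intro i
  induction i using Nat.strong_induction_on with
  | _ i ih =>
    intro hi
    by_cases hiq : i < q
    · congr 1
      ext
      simp only
      rw [Nat.mod_eq_of_lt hiq]
    · have h1 := hA ⟨i - q, by omega⟩ ⟨i, by omega⟩ (by simp only; omega) (by simpa using hi)
      rw [← h1, ih (i - q) (by omega) (by omega)]
      congr 1
      ext
      simp only
      exact (Nat.mod_eq_sub_mod (by omega)).symm

/-- exact number of words whose prefix of length `m` has period `q` -/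
lemma card_per {m q : ℕ} (hq : 1 ≤ q) (hqm : q ≤ m) (hmn : m ≤ n) :
    (univ.filter (fun A : Fin n → Bool => per m q A)).card = 2 ^ (q + (n - m)) := by
  classical
  apply le_antisymm
  · have := count_le (univ.filter (fun A : Fin n → Bool => per m q A)) (range q ∪ Ico m n) (by
      intro A hA B hB hAB
      rw [mem_filter] at hA hB
      funext i
      by_cases hi : (i : ℕ) < m
      · have h1 := per_mod hq hA.2 hmn i hi
        have h2 := per_mod hq hB.2 hmn i hi
        have hmod : (i : ℕ) % q < q := Nat.mod_lt _ (by omega)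
        have e : A ⟨(i : ℕ) % q, by omega⟩ = B ⟨(i : ℕ) % q, by omega⟩ := by
          apply hAB
          simp only [mem_union, mem_range]
          left; exact hmod
        calc A i = A ⟨(i : ℕ) % q, by omega⟩ := h1
          _ = B ⟨(i : ℕ) % q, by omega⟩ := e
          _ = B i := h2.symm
      · exact hAB i (by simp only [mem_union, mem_Ico]; right; exact ⟨by omega, i.2⟩) i.2)
    refine this.trans ?_
    apply Nat.pow_le_pow_right (by norm_num)
    refine (card_union_le _ _).trans ?_
    simp
  · -- injection
    set K := q + (n - m) with hK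
    let φ : Fin n → Fin K := fun i =>
      if h : (i : ℕ) < m then ⟨(i : ℕ) % q, by have := Nat.mod_lt (i : ℕ) (show 0 < q by omega); omega⟩
      else ⟨q + (i - m), by omega⟩
    have hφ : Function.Surjective φ := by
      intro k
      by_cases hk : (k : ℕ) < q
      · refine ⟨⟨k, by omega⟩, ?_⟩
        simp only [φ]
        rw [dif_pos (by omega)]
        ext
        simp only
        exact Nat.mod_eq_of_lt hk
      · refine ⟨⟨m + (k - q), by omega⟩, ?_⟩
        simp only [φ]
        rw [dif_neg (by omega)]
        ext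
        simp only
        omega
    have hinj : Function.Injective (fun w : Fin K → Bool => w ∘ φ) := hφ.injective_comp_right
    have hcard : (Finset.univ : Finset (Fin K → Bool)).card = 2 ^ K := by
      rw [Finset.card_univ, Fintype.card_fun, Fintype.card_bool, Fintype.card_fin]
    rw [← hcard]
    apply Finset.card_le_card_of_injOn (fun w : Fin K → Bool => w ∘ φ)
    · intro w _
      simp only [coe_filter, mem_univ, true_and, Set.mem_ofPred_eq]
      intro i j hij hj
      simp only [Function.comp, φ]
      rw [dif_pos hj, dif_pos (by omega)]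
      congr 2
      rw [hij, Nat.add_mod_right]
    · exact hinj.injOn

/-- number of words with two periods -/
lemma card_two_per {p q : ℕ} (hp : 1 ≤ p) (hpq : p < q) (hqn : q ≤ n) :
    (univ.filter (fun A : Fin n → Bool => per (n - 1) p A ∧ per (n - 1) q A)).card ≤
      2 ^ (min (q - p) (min (n - 1 - p) p) + (p - min (n - 1 - p) p) + 1) := by
  classical
  set M := min (n - 1 - p) p with hM
  have := count_le (univ.filter (fun A : Fin n → Bool => per (n - 1) p A ∧ per (n - 1) q A))
    (range (min (q - p) M) ∪ Ico M p ∪ {n - 1}) (by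
      intro A hA B hB hAB
      rw [mem_filter] at hA hB
      have hJ : ∀ j, j < n → (j < min (q - p) M ∨ (M ≤ j ∧ j < p) ∨ j = n - 1) →
          ∀ hj : j < n, A ⟨j, hj⟩ = B ⟨j, hj⟩ := by
        intro j _ hj hjn
        apply hAB
        simp only [mem_union, mem_range, mem_Ico, mem_singleton]
        tauto
      -- agreement on [0, M)
      have h1 : ∀ i, i < M → ∀ hi : i < n, A ⟨i, hi⟩ = B ⟨i, hi⟩ := by
        intro i
        induction i using Nat.strong_induction_on with
        | _ i ih =>
          intro hiM hi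
          by_cases hir : i < q - p
          · exact hJ i hi (Or.inl (by omega)) hi
          · have key : ∀ X : Fin n → Bool, per (n - 1) p X → per (n - 1) q X →
                X ⟨i, hi⟩ = X ⟨i - (q - p), by omega⟩ := by
              intro X hXp hXq
              have e1 := hXp ⟨i, hi⟩ ⟨i + p, by omega⟩ rfl (by simp only; omega)
              have e2 := hXq ⟨i - (q - p), by omega⟩ ⟨i + p, by omega⟩ (by simp only; omega)
                (by simp only; omega)
              rw [e1, e2]
            rw [key A hA.2.1 hA.2.2, key B hB.2.1 hB.2.2]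
            exact ih (i - (q - p)) (by omega) (by omega) (by omega)
      -- agreement on [0, p)
      have h2 : ∀ i, i < p → ∀ hi : i < n, A ⟨i, hi⟩ = B ⟨i, hi⟩ := by
        intro i hip hi
        by_cases hiM : i < M
        · exact h1 i hiM hi
        · exact hJ i hi (Or.inr (Or.inl ⟨by omega, hip⟩)) hi
      -- agreement on [0, n-1)
      have h3 : ∀ i, i < n - 1 → ∀ hi : i < n, A ⟨i, hi⟩ = B ⟨i, hi⟩ := by
        intro i
        induction i using Nat.strong_induction_on with
        | _ i ih =>
          intro hin hi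
          by_cases hip : i < p
          · exact h2 i hip hi
          · have e1 := hA.2.1 ⟨i - p, by omega⟩ ⟨i, hi⟩ (by simp only; omega) (by simpa using hin)
            have e2 := hB.2.1 ⟨i - p, by omega⟩ ⟨i, hi⟩ (by simp only; omega) (by simpa using hin)
            rw [← e1, ← e2]
            exact ih (i - p) (by omega) (by omega) (by omega)
      funext i
      by_cases hi : (i : ℕ) < n - 1
      · exact h3 i hi i.2
      · exact hJ i i.2 (Or.inr (Or.inr (by omega))) i.2)
  refine this.trans ?_
  apply Nat.pow_le_pow_right (by norm_num)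
  refine (card_union_le _ _).trans ?_
  refine (Nat.add_le_add_right (card_union_le _ _) _).trans ?_
  simp

end

end Pool.Agent.Lib.MP_988dcd_pr
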