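import Mathlib
import Pool.Agent.Lib.MP_988dcd_pr.Words

set_option autoImplicit false

open Finset

namespace Pool.Agent.Lib.MP_988dcd_pr

section
variable {n : ℕ}

noncomputable def al (A : Fin n → Bool) : ℝ :=
  ∑ r ∈ Ico 1 n, if per n r A then (1 / 2 : ℝ) ^ r else 0

noncomputable def de (A : Fin n → Bool) : ℝ :=
  ∑ r ∈ Ico 1 n, if per (n - 1) r A then (1 / 2 : ℝ) ^ r else 0

noncomputable def TT (x : Bool) (A : Fin n → Bool) : ℝ :=
  ∑ q ∈ Ico 1 (n + 1),
    if (∀ h : q - 1 < n, A ⟨q - 1, h⟩ = x) ∧ per (n - 1) q A then (1 / 2 : ℝ) ^ q else 0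

noncomputable def ka (A : Fin n → Bool) : ℝ :=
  ∑ q ∈ Ico 1 (n + 1), ∑ p ∈ Ico 1 q,
    if per (n - 1) p A ∧ per (n - 1) q A then (1 / 2 : ℝ) ^ q else 0

lemma per_mono {m m' q : ℕ} (h : m' ≤ m) {A : Fin n → Bool} (hA : per m q A) : per m' q A :=
  fun i j hij hj => hA i j hij (by omega)

lemma per_self {m : ℕ} (A : Fin n → Bool) : per m m A := by
  intro i j hij hj; omega

lemma LL_self (hn : 1 ≤ n) (A : Fin n → Bool) : LL A A = 1 + al A := by
  rw [LL_split hn, if_pos rfl]
  unfold LT al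
  simp only [ovs_self]

lemma al_nonneg (A : Fin n → Bool) : 0 ≤ al A := by
  unfold al
  apply Finset.sum_nonneg
  intro r _
  split_ifs <;> positivity

lemma al_le_de (A : Fin n → Bool) : al A ≤ de A := by
  unfold al de
  apply Finset.sum_le_sum
  intro r _
  by_cases h : per n r A
  · rw [if_pos h, if_pos (per_mono (by omega) h)]
  · rw [if_neg h]
    split_ifs <;> positivity

lemma de_ge (hn : 2 ≤ n) (A : Fin n → Bool) : (1 / 2 : ℝ) ^ (n - 1) ≤ de A := by
  unfold de
  have : (if per (n - 1) (n - 1) A then (1 / 2 : ℝ) ^ (n - 1) else 0) ≤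
      ∑ r ∈ Ico 1 n, if per (n - 1) r A then (1 / 2 : ℝ) ^ r else 0 := by
    apply Finset.single_le_sum (f := fun r => if per (n - 1) r A then (1 / 2 : ℝ) ^ r else 0)
    · intro r _
      split_ifs <;> positivity
    · rw [mem_Ico]; omega
  rwa [if_pos (per_self A)] at this

lemma de_le_one (A : Fin n → Bool) (hn : 1 ≤ n) : de A ≤ 1 := by
  have := sum_le_geom 1 n le_rfl hn (fun r => per (n - 1) r A) (by intro r h1 h2; omega)
  unfold de
  norm_num at this
  exact this

lemma LL_cand_left (hn : 2 ≤ n) {x : Bool} {A : Fin n → Bool} (h : cand x A ≠ A) :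
    2 * LL (cand x A) A = 1 + de A - (1 / 2) ^ (n - 1) := by
  rw [LL_split (by omega), if_neg h]
  unfold LT de
  have h1 : ∑ r ∈ Ico 1 n, (if ovs (cand x A) A r then (1 / 2 : ℝ) ^ r else 0) =
      ∑ r ∈ Ico 1 n, (if per (n - 1) (r - 1) A then (1 / 2 : ℝ) ^ r else 0) := by
    apply Finset.sum_congr rfl
    intro r hr
    rw [mem_Ico] at hr
    simp only [ovs_cand_left x A r hr.1]
  rw [h1, Finset.sum_eq_sum_Ico_succ_bot (by omega : 1 < n)]
  have h0 : per (n - 1) (1 - 1) A := by
    intro i j hij hj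
    congr 1
    ext; omega
  rw [if_pos h0]
  have h2 : ∑ r ∈ Ico (1 + 1) n, (if per (n - 1) (r - 1) A then (1 / 2 : ℝ) ^ r else 0) =
      (1 / 2) * ∑ r ∈ Ico 1 (n - 1), (if per (n - 1) r A then (1 / 2 : ℝ) ^ r else 0) := by
    rw [Finset.mul_sum]
    have : Ico (1 + 1) n = Ico (1 + 1) ((n - 1) + 1) := by congr 1; omega
    rw [this, ← Finset.sum_Ico_add' (fun r => if per (n - 1) (r - 1) A then (1 / 2 : ℝ) ^ r else 0) 1 (n - 1) 1]
    apply Finset.sum_congr rfl
    intro r _
    simp only [Nat.add_sub_cancel]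
    split_ifs
    · rw [pow_succ]; ring
    · simp
  rw [h2]
  have h3 : ∑ r ∈ Ico 1 n, (if per (n - 1) r A then (1 / 2 : ℝ) ^ r else 0) =
      ∑ r ∈ Ico 1 (n - 1), (if per (n - 1) r A then (1 / 2 : ℝ) ^ r else 0) + (1 / 2) ^ (n - 1) := by
    have : Ico 1 n = Ico 1 ((n - 1) + 1) := by congr 1; omega
    rw [this, Finset.sum_Ico_succ_top (by omega), if_pos (per_self A)]
  rw [h3]
  ring

lemma LT_self_le (x : Bool) (A : Fin n → Bool) : LT (cand x A) (cand x A) ≤ de A := by
  unfold LT de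
  apply Finset.sum_le_sum
  intro r hr
  rw [mem_Ico] at hr
  by_cases h : ovs (cand x A) (cand x A) r
  · rw [if_pos h, if_pos (ovs_cand_self x A r hr.1 hr.2 h).2]
  · rw [if_neg h]
    split_ifs <;> positivity

lemma LT_self_le' (x : Bool) (A : Fin n → Bool) : LT (cand x A) (cand x A) ≤ TT x A := by
  unfold LT TT
  have h1 : ∑ r ∈ Ico 1 n, (if ovs (cand x A) (cand x A) r then (1 / 2 : ℝ) ^ r else 0) ≤
    ∑ q ∈ Ico 1 n, if (∀ h : q - 1 < n, A ⟨q - 1, h⟩ = x) ∧ per (n - 1) q A then (1 / 2 : ℝ) ^ q else 0 := by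
    apply Finset.sum_le_sum
    intro r hr
    rw [mem_Ico] at hr
    by_cases h : ovs (cand x A) (cand x A) r
    · have h2 := ovs_cand_self x A r hr.1 hr.2 h
      rw [if_pos h, if_pos ⟨fun _ => h2.1, h2.2⟩]
    · rw [if_neg h]
      split_ifs <;> positivity
  refine h1.trans ?_
  apply Finset.sum_le_sum_of_subset_of_nonneg
  · intro r; simp only [mem_Ico]; omega
  · intro r _ _
    split_ifs <;> positivity

lemma LT_right_aux (x : Bool) (A : Fin n → Bool) : LT A (cand x A) ≤
    2 * ∑ q ∈ Ico 2 (n + 1),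
      if (∀ h : q - 1 < n, A ⟨q - 1, h⟩ = x) ∧ per n q A then (1 / 2 : ℝ) ^ q else 0 := by
  unfold LT
  rw [← Finset.sum_Ico_add' (fun q => if (∀ h : q - 1 < n, A ⟨q - 1, h⟩ = x) ∧ per n q A then (1 / 2 : ℝ) ^ q else 0) 1 n 1,
    Finset.mul_sum]
  apply Finset.sum_le_sum
  intro r hr
  rw [mem_Ico] at hr
  by_cases h : ovs A (cand x A) r
  · have h2 := ovs_cand_right x A r hr.1 hr.2 h
    rw [if_pos h, if_pos ⟨fun _ => h2.1, h2.2⟩, pow_succ]
    apply le_of_eq; ring
  · rw [if_neg h]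
    split_ifs <;> positivity

lemma LT_right_le' (x : Bool) (A : Fin n → Bool) : LT A (cand x A) ≤ 2 * TT x A := by
  refine (LT_right_aux x A).trans ?_
  unfold TT
  apply mul_le_mul_of_nonneg_left _ (by norm_num)
  have : ∑ q ∈ Ico 2 (n + 1), (if (∀ h : q - 1 < n, A ⟨q - 1, h⟩ = x) ∧ per n q A then (1 / 2 : ℝ) ^ q else 0) ≤
      ∑ q ∈ Ico 2 (n + 1), if (∀ h : q - 1 < n, A ⟨q - 1, h⟩ = x) ∧ per (n - 1) q A then (1 / 2 : ℝ) ^ q else 0 := by
    apply Finset.sum_le_sum
    intro q _
    by_cases h : (∀ h : q - 1 < n, A ⟨q - 1, h⟩ = x) ∧ per n q A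
    · rw [if_pos h, if_pos ⟨h.1, per_mono (by omega) h.2⟩]
    · rw [if_neg h]
      split_ifs <;> positivity
  refine this.trans ?_
  apply Finset.sum_le_sum_of_subset_of_nonneg
  · intro r; simp only [mem_Ico]; omega
  · intro r _ _
    split_ifs <;> positivity

lemma LT_right_le (hn : 2 ≤ n) (x : Bool) (A : Fin n → Bool) : LT A (cand x A) ≤ 3 * de A := by
  have h0 := LT_right_aux x A
  have h1 : ∑ q ∈ Ico 2 (n + 1), (if (∀ h : q - 1 < n, A ⟨q - 1, h⟩ = x) ∧ per n q A then (1 / 2 : ℝ) ^ q else 0) ≤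
      al A + (1 / 2) ^ n := by
    rw [Finset.sum_Ico_succ_top (by omega)]
    apply add_le_add
    · unfold al
      refine le_trans (b := ∑ q ∈ Ico 2 n, if per n q A then (1 / 2 : ℝ) ^ q else 0) ?_ ?_
      · apply Finset.sum_le_sum
        intro q _
        by_cases h : (∀ h : q - 1 < n, A ⟨q - 1, h⟩ = x) ∧ per n q A
        · rw [if_pos h, if_pos h.2]
        · rw [if_neg h]
          split_ifs <;> positivity
      · apply Finset.sum_le_sum_of_subset_of_nonneg
        · intro r; simp only [mem_Ico]; omega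
        · intro r _ _
          split_ifs <;> positivity
    · split_ifs
      · exact le_rfl
      · positivity
  have h2 := al_le_de A
  have h3 := de_ge hn A
  have h4 : (1 / 2 : ℝ) ^ (n - 1) = 2 * (1 / 2) ^ n := by
    conv_rhs => rw [show n = (n - 1) + 1 by omega, pow_succ]
    ring
  linarith

/-- exceptional words -/
def Ex (A : Fin n → Bool) : Prop := per n 1 A ∨ per n 2 A ∨ per (n - 2) 1 A

instance (A : Fin n → Bool) : Decidable (Ex A) := by unfold Ex; infer_instance

lemma cand_ne {x : Bool} {A : Fin n → Bool} (h : ¬ Ex A) : cand x A ≠ A := by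
  intro he
  apply h
  left
  intro i j hij hj
  have := congrFun he j
  unfold cand at this
  rw [if_neg (by omega)] at this
  rw [← this]
  congr 1
  ext; simp only; omega

lemma de_half {A : Fin n → Bool} (hn : 2 ≤ n) (h : ¬ Ex A) : de A ≤ 1 / 2 := by
  have := sum_le_geom 2 n (by norm_num) hn (fun r => per (n - 1) r A) (by
    intro r h1 h2 h3
    have : r = 1 := by omega
    subst this
    exact h (Or.inr (Or.inr (per_mono (by omega) h3))))
  unfold de
  norm_num at this
  exact this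

lemma LT_right_half {A : Fin n → Bool} (hn : 2 ≤ n) (h : ¬ Ex A) (x : Bool) :
    LT A (cand x A) ≤ 1 / 2 := by
  have := sum_le_geom 2 n (by norm_num) hn (fun r => ovs A (cand x A) r) (by
    intro r h1 h2 h3
    have : r = 1 := by omega
    subst this
    exact h (Or.inr (Or.inl (ovs_cand_right x A 1 le_rfl (by omega) h3).2)))
  unfold LT
  norm_num at this
  exact this

lemma al_quarter {A : Fin n → Bool} (hn : 3 ≤ n) (h : ¬ Ex A) : al A ≤ 1 / 4 := by
  have := sum_le_geom 3 n (by norm_num) hn (fun r => per n r A) (by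
    intro r h1 h2 h3
    have : r = 1 ∨ r = 2 := by omega
    rcases this with rfl | rfl
    · exact h (Or.inl h3)
    · exact h (Or.inr (Or.inl h3)))
  unfold al
  norm_num at this
  exact this

/-- probability that `B` comes before `A` -/
noncomputable def PB (B A : Fin n → Bool) : ℝ := (coin (before B A)).toReal

lemma PB_nonneg (B A : Fin n → Bool) : 0 ≤ PB B A := ENNReal.toReal_nonneg

lemma PB_le_one (B A : Fin n → Bool) : PB B A ≤ 1 := by
  unfold PB
  have := ENNReal.toReal_mono ENNReal.one_ne_top (MeasureTheory.prob_le_one (μ := coin) (s := before B A))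
  simpa using this

/-- Conway's formula with the pieces separated -/
lemma conwayP (hn : 1 ≤ n) {A B : Fin n → Bool} (h : B ≠ A) :
    PB B A * ((1 + al A - LT A B) + (1 + LT B B - LT B A)) = 1 + al A - LT A B := by
  have h1 := conwayL hn (A := A) (B := B) (Ne.symm h)
  rw [LL_self hn A, LL_split hn A B, if_neg (Ne.symm h), LL_split hn B B, if_pos rfl,
    LL_split hn B A, if_neg h] at h1
  unfold PB
  linear_combination h1

lemma LT_lt_one (hn : 1 ≤ n) (X Y : Fin n → Bool) : LT X Y < 1 := by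
  unfold LT
  have h1 : ∑ r ∈ Ico 1 n, (if ovs X Y r then (1 / 2 : ℝ) ^ r else 0) ≤ ∑ r ∈ Ico 1 n, (1 / 2 : ℝ) ^ r := by
    apply Finset.sum_le_sum
    intro r _
    split_ifs
    · exact le_rfl
    · positivity
  rw [geom_Ico 1 n hn] at h1
  have : (0 : ℝ) < 2 * (1 / 2) ^ n := by positivity
  linarith

lemma noncand_le (hn : 4 ≤ n) {A B : Fin n → Bool} (hA : ¬ Ex A) (h : B ≠ A)
    (hB : ¬ ovs B A 1) : PB B A ≤ 2 / 3 := by
  have hc := conwayP (by omega) h
  have ha := al_quarter (by omega) hA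
  have ha0 := al_nonneg A
  have h1 := LT_nonneg A B
  have h2 := LT_lt_one (by omega) A B
  have h3 := LT_nonneg B B
  have h4 := LT_lt_one (by omega) B A
  have h5 : LT B A ≤ 3 / 8 := by
    by_cases hB2 : ovs B A 2
    · have hB3 : ¬ ovs B A 3 := by
        intro hB3
        apply hA
        right; right
        intro i j hij hj
        have e1 := hB2 ⟨j + 2, by omega⟩ j (by simp only; omega)
        have e2 := hB3 ⟨j + 2, by omega⟩ i (by simp only; omega)
        rw [← e1, ← e2]
      unfold LT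
      rw [Finset.sum_eq_sum_Ico_succ_bot (by omega), if_neg hB,
        Finset.sum_eq_sum_Ico_succ_bot (by omega), if_pos hB2,
        Finset.sum_eq_sum_Ico_succ_bot (by omega), if_neg hB3]
      have h6 : ∑ r ∈ Ico (1 + 1 + 1 + 1) n, (if ovs B A r then (1 / 2 : ℝ) ^ r else 0) ≤
          ∑ r ∈ Ico 4 n, (1 / 2 : ℝ) ^ r := by
        apply Finset.sum_le_sum
        intro r _
        split_ifs
        · exact le_rfl
        · positivity
      rw [geom_Ico 4 n hn] at h6
      have : (0 : ℝ) < 2 * (1 / 2) ^ n := by positivity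
      norm_num at h6 ⊢
      linarith
    · have := sum_le_geom 3 n (by norm_num) (by omega) (fun r => ovs B A r) (by
        intro r h1 h2 h3
        have : r = 1 ∨ r = 2 := by omega
        rcases this with rfl | rfl
        · exact hB h3
        · exact hB2 h3)
      unfold LT
      norm_num at this ⊢
      linarith
  by_contra hcon
  push Not at hcon
  have hD : 0 < (1 + al A - LT A B) + (1 + LT B B - LT B A) := by linarith
  have := mul_lt_mul_of_pos_right hcon hD
  rw [hc] at this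
  linarith

lemma cand_of_ovs {A B : Fin n → Bool} (hn : 1 ≤ n) (h : ovs B A 1) : B = cand (B ⟨0, by omega⟩) A := by
  funext i
  unfold cand
  by_cases hi : (i : ℕ) = 0
  · rw [if_pos hi]
    congr 1
    ext; simpa using hi
  · rw [if_neg hi]
    exact h i ⟨i - 1, by omega⟩ (by simp only; omega)

/-- the main term -/
noncomputable def mu (A : Fin n → Bool) : ℝ := al A + de A - (1 / 2) ^ (n - 1)

lemma mu_nonneg (hn : 2 ≤ n) (A : Fin n → Bool) : 0 ≤ mu A := by
  unfold mu
  have := de_ge hn A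
  have := al_nonneg A
  linarith

lemma mu_le (A : Fin n → Bool) : mu A ≤ 2 * de A := by
  unfold mu
  have := al_le_de A
  have : (0 : ℝ) ≤ (1 / 2) ^ (n - 1) := by positivity
  linarith

/-- formula for candidates -/
lemma cand_formula (hn : 2 ≤ n) {A : Fin n → Bool} (hA : ¬ Ex A) (x : Bool) :
    (PB (cand x A) A - 2 / 3) * (3 * (3 / 2 + al A + LT (cand x A) (cand x A) - LT A (cand x A)
      - (de A - (1 / 2) ^ (n - 1)) / 2)) =
    mu A - (LT A (cand x A) + 2 * LT (cand x A) (cand x A)) := by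
  have hne := cand_ne (x := x) hA
  have hc := conwayP (by omega) hne
  have h1 := LL_cand_left hn hne
  rw [LL_split (by omega), if_neg hne] at h1
  have h2 : LT (cand x A) A = (1 + de A - (1 / 2) ^ (n - 1)) / 2 := by linarith
  rw [h2] at hc
  unfold mu
  linear_combination 3 * hc

lemma cand_D {A : Fin n → Bool} (hn : 2 ≤ n) (hA : ¬ Ex A) (x : Bool) :
    1 / 2 ≤ 3 / 2 + al A + LT (cand x A) (cand x A) - LT A (cand x A)
      - (de A - (1 / 2) ^ (n - 1)) / 2 := by
  have h1 := al_nonneg A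
  have h2 := LT_nonneg (cand x A) (cand x A)
  have h3 := LT_right_half hn hA x
  have h4 := de_half hn hA
  have : (0 : ℝ) ≤ (1 / 2) ^ (n - 1) := by positivity
  linarith

lemma cand_upper {A : Fin n → Bool} (hn : 2 ≤ n) (hA : ¬ Ex A) (x : Bool) :
    PB (cand x A) A ≤ 2 / 3 + (2 / 9) * mu A + (28 / 9) * de A ^ 2 := by
  have hf := cand_formula hn hA x
  have hD := cand_D hn hA x
  have h1 := al_nonneg A
  have h2 := LT_nonneg (cand x A) (cand x A)
  have h3 := LT_right_le hn x A
  have h3' := LT_nonneg A (cand x A)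
  have h4 := mu_nonneg hn A
  have h5 := mu_le A
  have h6 := de_ge hn A
  have h7 : (0 : ℝ) ≤ (1 / 2) ^ (n - 1) := by positivity
  set D := 3 / 2 + al A + LT (cand x A) (cand x A) - LT A (cand x A)
      - (de A - (1 / 2) ^ (n - 1)) / 2 with hDdef
  have hD2 : 3 / 2 - (7 / 2) * de A ≤ D := by rw [hDdef]; linarith
  have hde : 0 ≤ de A := h7.trans h6
  have h8 : (PB (cand x A) A - 2 / 3) * (3 * D) ≤ mu A := by rw [hf]; linarith
  -- want  PB - 2/3 ≤ (2/9) mu + (28/9) de²
  by_contra hcon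
  push Not at hcon
  have h9 : ((2 / 9) * mu A + (28 / 9) * de A ^ 2) * (3 * D) < (PB (cand x A) A - 2 / 3) * (3 * D) := by
    apply mul_lt_mul_of_pos_right _ (by linarith)
    linarith
  have h10 : mu A ≤ ((2 / 9) * mu A + (28 / 9) * de A ^ 2) * (3 * D) := by
    nlinarith [mul_nonneg h4 (sub_nonneg.mpr hD2), mul_nonneg (sq_nonneg (de A)) (sub_nonneg.mpr hD),
      mul_nonneg h4 hde, mul_nonneg hde (sub_nonneg.mpr h5)]
  linarith

lemma cand_lower {A : Fin n → Bool} (hn : 2 ≤ n) (hA : ¬ Ex A) (x : Bool) :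
    2 / 3 + (2 / 9) * mu A - de A ^ 2 - (8 / 3) * TT x A ≤ PB (cand x A) A := by
  have hf := cand_formula hn hA x
  have hD := cand_D hn hA x
  have h1 := al_le_de A
  have h2 := LT_nonneg (cand x A) (cand x A)
  have h2' := LT_self_le x A
  have h2'' := LT_self_le' x A
  have h3 := LT_right_le' x A
  have h3' := LT_nonneg A (cand x A)
  have h4 := mu_nonneg hn A
  have h5 := mu_le A
  have h6 := de_ge hn A
  have h7 : (0 : ℝ) ≤ (1 / 2) ^ (n - 1) := by positivity
  set D := 3 / 2 + al A + LT (cand x A) (cand x A) - LT A (cand x A)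
      - (de A - (1 / 2) ^ (n - 1)) / 2 with hDdef
  have hde : 0 ≤ de A := h7.trans h6
  have hD2 : D ≤ 3 / 2 + 2 * de A := by rw [hDdef]; linarith
  set C := LT A (cand x A) + 2 * LT (cand x A) (cand x A) with hC
  have hC0 : 0 ≤ C := by rw [hC]; linarith
  have hC1 : C ≤ 4 * TT x A := by rw [hC]; linarith
  suffices h : (2 / 9) * mu A - de A ^ 2 - (2 / 3) * C ≤ PB (cand x A) A - 2 / 3 by linarith
  by_contra hcon
  push Not at hcon
  have h9 : (PB (cand x A) A - 2 / 3) * (3 * D) < ((2 / 9) * mu A - de A ^ 2 - (2 / 3) * C) * (3 * D) := by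
    apply mul_lt_mul_of_pos_right _ (by linarith)
    linarith
  rw [hf] at h9
  have h10 : ((2 / 9) * mu A - de A ^ 2 - (2 / 3) * C) * (3 * D) ≤ mu A - C := by
    nlinarith [mul_nonneg h4 (sub_nonneg.mpr hD2), mul_nonneg (sq_nonneg (de A)) (sub_nonneg.mpr hD),
      mul_nonneg h4 hde, mul_nonneg hde (sub_nonneg.mpr h5), mul_nonneg hC0 (sub_nonneg.mpr hD)]
  linarith

lemma exists_TT_le (hn : 2 ≤ n) (A : Fin n → Bool) : ∃ x, TT x A ≤ ka A := by
  have hex : ∃ q, 1 ≤ q ∧ per (n - 1) q A := ⟨n - 1, by omega, per_self A⟩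
  classical
  set q0 := Nat.find hex with hq0
  have hq0s := Nat.find_spec hex
  rw [← hq0] at hq0s
  have hmin : ∀ q, 1 ≤ q → q < q0 → ¬ per (n - 1) q A := by
    intro q h1 h2 h3
    exact Nat.find_min hex h2 ⟨h1, h3⟩
  have hq0n : q0 ≤ n - 1 := Nat.find_min' hex ⟨by omega, per_self A⟩
  refine ⟨! A ⟨q0 - 1, by omega⟩, ?_⟩
  unfold TT ka
  apply Finset.sum_le_sum
  intro q hq
  rw [mem_Ico] at hq
  by_cases h : (∀ h : q - 1 < n, A ⟨q - 1, h⟩ = ! A ⟨q0 - 1, by omega⟩) ∧ per (n - 1) q A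
  · rw [if_pos h]
    have hq1 : q0 < q := by
      by_contra hcon
      push Not at hcon
      rcases Nat.lt_or_eq_of_le hcon with h1 | h1
      · exact hmin q hq.1 h1 h.2
      · subst h1
        have := h.1 (by omega)
        simp at this
    have := Finset.single_le_sum (f := fun p => if per (n - 1) p A ∧ per (n - 1) q A then (1 / 2 : ℝ) ^ q else 0)
      (s := Ico 1 q) (a := q0) (by
        intro p _
        split_ifs <;> positivity) (by rw [mem_Ico]; exact ⟨hq0s.1, hq1⟩)
    rw [if_pos ⟨hq0s.2, h.2⟩] at this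
    exact this
  · rw [if_neg h]
    apply Finset.sum_nonneg
    intro p _
    split_ifs <;> positivity

/-- best reply -/
noncomputable def best (A : Fin n → Bool) : ℝ := ⨆ B : {B : Fin n → Bool // B ≠ A}, PB B.1 A

lemma exists_ne (hn : 1 ≤ n) (A : Fin n → Bool) : Nonempty {B : Fin n → Bool // B ≠ A} := by
  refine ⟨⟨fun i => ! A i, ?_⟩⟩
  intro h
  have := congrFun h ⟨0, by omega⟩
  simp at this

lemma best_le (hn : 4 ≤ n) {A : Fin n → Bool} (hA : ¬ Ex A) :
    best A ≤ 2 / 3 + (2 / 9) * mu A + (28 / 9) * de A ^ 2 := by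
  haveI := exists_ne (by omega) A
  apply ciSup_le
  rintro ⟨B, hB⟩
  simp only
  by_cases h : ovs B A 1
  · rw [cand_of_ovs (by omega) h]
    exact cand_upper (by omega) hA _
  · have h1 := noncand_le hn hA hB h
    have h2 := mu_nonneg (by omega) A
    have h3 := sq_nonneg (de A)
    linarith

lemma le_best (A B : Fin n → Bool) (hB : B ≠ A) : PB B A ≤ best A := by
  unfold best
  exact le_ciSup (f := fun B : {B : Fin n → Bool // B ≠ A} => PB B.1 A) (Set.toFinite _).bddAbove ⟨B, hB⟩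

lemma best_ge (hn : 4 ≤ n) {A : Fin n → Bool} (hA : ¬ Ex A) :
    2 / 3 + (2 / 9) * mu A - de A ^ 2 - (8 / 3) * ka A ≤ best A := by
  obtain ⟨x, hx⟩ := exists_TT_le (by omega) A
  have h1 := cand_lower (by omega) hA x
  have h2 := le_best A (cand x A) (cand_ne hA)
  linarith

lemma best_nonneg (hn : 1 ≤ n) (A : Fin n → Bool) : 0 ≤ best A := by
  obtain ⟨B, hB⟩ := exists_ne hn A
  exact (PB_nonneg B A).trans (le_best A B hB)

lemma best_le_one (hn : 1 ≤ n) (A : Fin n → Bool) : best A ≤ 1 := by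
  haveI := exists_ne hn A
  exact ciSup_le (fun B => PB_le_one B.1 A)

lemma ka_nonneg (A : Fin n → Bool) : 0 ≤ ka A := by
  unfold ka
  apply Finset.sum_nonneg
  intro q _
  apply Finset.sum_nonneg
  intro p _
  split_ifs <;> positivity

lemma best_err (hn : 4 ≤ n) (A : Fin n → Bool) :
    |best A - (2 / 3 + (2 / 9) * mu A)| ≤ (28 / 9) * de A ^ 2 + (8 / 3) * ka A + (if Ex A then 2 else 0) := by
  have h0 := mu_nonneg (by omega) A
  have h1 := mu_le A
  have h2 := de_le_one A (by omega)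
  have h3 := ka_nonneg A
  have h4 := sq_nonneg (de A)
  by_cases h : Ex A
  · rw [if_pos h]
    have h5 := best_nonneg (by omega) A
    have h6 := best_le_one (by omega) A
    rw [abs_le]
    constructor <;> linarith
  · rw [if_neg h]
    have h5 := best_le hn h
    have h6 := best_ge hn h
    rw [abs_le]
    constructor <;> linarith

end

end Pool.Agent.Lib.MP_988dcd_pr
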