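import Mathlib
import Pool.Agent.Lib.MP_988dcd_pr.Analysis

set_option autoImplicit false

open Finset

namespace Pool.Agent.Lib.MP_988dcd_pr

section
variable {n : ℕ}

/-- exchanging a sum over words with an indicator -/
lemma sum_ind (P : (Fin n → Bool) → Prop) [DecidablePred P] (c : ℝ) :
    ∑ A : Fin n → Bool, (if P A then c else 0) = ((univ.filter P).card : ℝ) * c := by
  rw [← Finset.sum_filter, Finset.sum_const, nsmul_eq_mul]

lemma half_pow_mul (a b : ℕ) : (2 : ℝ) ^ (a + b) * (1 / 2) ^ a = 2 ^ b := by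
  rw [pow_add]
  have : (2 : ℝ) ^ a * (1 / 2) ^ a = 1 := by rw [← mul_pow]; norm_num
  linear_combination (2 : ℝ) ^ b * this

lemma sum_al (hn : 1 ≤ n) : ∑ A : Fin n → Bool, al A = (n : ℝ) - 1 := by
  unfold al
  rw [Finset.sum_comm]
  have : ∀ r ∈ Ico 1 n, ∑ A : Fin n → Bool, (if per n r A then (1 / 2 : ℝ) ^ r else 0) = 1 := by
    intro r hr
    rw [mem_Ico] at hr
    rw [sum_ind, card_per hr.1 (by omega) le_rfl]
    have := half_pow_mul r 0
    simp only [add_zero, pow_zero] at this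
    push_cast
    simpa using this
  rw [Finset.sum_congr rfl this]
  simp
  push_cast [Nat.cast_sub hn]
  ring

lemma sum_de (hn : 1 ≤ n) : ∑ A : Fin n → Bool, de A = 2 * ((n : ℝ) - 1) := by
  unfold de
  rw [Finset.sum_comm]
  have : ∀ r ∈ Ico 1 n, ∑ A : Fin n → Bool, (if per (n - 1) r A then (1 / 2 : ℝ) ^ r else 0) = 2 := by
    intro r hr
    rw [mem_Ico] at hr
    rw [sum_ind, card_per hr.1 (by omega) (by omega)]
    have := half_pow_mul r 1
    rw [show n - (n - 1) = 1 by omega]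
    push_cast
    rw [this]; norm_num
  rw [Finset.sum_congr rfl this]
  simp
  push_cast [Nat.cast_sub hn]
  ring

lemma sum_mu (hn : 1 ≤ n) : ∑ A : Fin n → Bool, mu A = 3 * (n : ℝ) - 5 := by
  unfold mu
  rw [Finset.sum_sub_distrib, Finset.sum_add_distrib, sum_al hn, sum_de hn]
  rw [Finset.sum_const, Finset.card_univ, Fintype.card_fun, Fintype.card_bool, Fintype.card_fin,
    nsmul_eq_mul]
  have := half_pow_mul (n - 1) 1
  rw [show n - 1 + 1 = n by omega] at this
  push_cast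
  rw [this]
  ring

/-- `∑ (r+1) 2^{-r}` -/
lemma arith_geom (n : ℕ) (hn : 1 ≤ n) :
    ∑ r ∈ Ico 1 n, ((r : ℝ) + 1) * (1 / 2) ^ r = 3 - 2 * ((n : ℝ) + 2) * (1 / 2) ^ n := by
  induction n, hn using Nat.le_induction with
  | base => norm_num
  | succ n hn ih =>
    rw [Finset.sum_Ico_succ_top hn, ih, pow_succ]
    push_cast
    ring

lemma arith_geom_le (n : ℕ) : ∑ r ∈ Ico 1 n, ((r : ℝ) + 1) * (1 / 2) ^ r ≤ 3 := by
  rcases Nat.eq_zero_or_pos n with rfl | hn
  · simp
  · rw [arith_geom n hn]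
    have : (0 : ℝ) ≤ 2 * ((n : ℝ) + 2) * (1 / 2) ^ n := by positivity
    linarith

lemma arith_geom_le' (n : ℕ) : ∑ r ∈ Ico 0 n, ((r : ℝ) + 1) * (1 / 2) ^ r ≤ 4 := by
  rcases Nat.eq_zero_or_pos n with rfl | hn
  · simp
  · rw [Finset.sum_eq_sum_Ico_succ_bot hn]
    have := arith_geom_le n
    norm_num at this ⊢
    linarith

lemma card_two_le {r s : ℕ} (hr : 1 ≤ r) (hrn : r < n) :
    ((univ.filter (fun A : Fin n → Bool => per (n - 1) r A ∧ per (n - 1) s A)).card : ℝ) ≤ 2 ^ (r + 1) := by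
  have h1 := card_per (n := n) hr (show r ≤ n - 1 by omega) (by omega)
  rw [show n - (n - 1) = 1 by omega] at h1
  have h2 : (univ.filter (fun A : Fin n → Bool => per (n - 1) r A ∧ per (n - 1) s A)).card ≤ 2 ^ (r + 1) := by
    rw [← h1]
    apply Finset.card_le_card
    intro A
    simp only [mem_filter, mem_univ, true_and]
    exact fun h => h.1
  exact_mod_cast h2

lemma sum_de_sq : ∑ A : Fin n → Bool, de A ^ 2 ≤ 6 := by
  have h1 : ∀ A : Fin n → Bool, de A ^ 2 = ∑ r ∈ Ico 1 n, ∑ s ∈ Ico 1 n,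
      if per (n - 1) r A ∧ per (n - 1) s A then (1 / 2 : ℝ) ^ r * (1 / 2) ^ s else 0 := by
    intro A
    unfold de
    rw [pow_two, Finset.sum_mul_sum]
    apply Finset.sum_congr rfl
    intro r _
    apply Finset.sum_congr rfl
    intro s _
    by_cases h1 : per (n - 1) r A <;> by_cases h2 : per (n - 1) s A <;> simp [h1, h2]
  rw [Finset.sum_congr rfl (fun A _ => h1 A), Finset.sum_comm]
  have h2 : ∀ r ∈ Ico 1 n, ∑ A : Fin n → Bool, ∑ s ∈ Ico 1 n,
      (if per (n - 1) r A ∧ per (n - 1) s A then (1 / 2 : ℝ) ^ r * (1 / 2) ^ s else 0) ≤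
        2 * (((r : ℝ) + 1) * (1 / 2) ^ r) := by
    intro r hr
    rw [mem_Ico] at hr
    rw [Finset.sum_comm]
    have h3 : ∀ s ∈ Ico 1 n, ∑ A : Fin n → Bool,
        (if per (n - 1) r A ∧ per (n - 1) s A then (1 / 2 : ℝ) ^ r * (1 / 2) ^ s else 0) ≤
          2 * (1 / 2) ^ (max r s) := by
      intro s hs
      rw [mem_Ico] at hs
      rw [sum_ind]
      rcases le_total r s with hrs | hrs
      · have h4 := card_two_le (n := n) (s := s) hr.1 hr.2
        rw [max_eq_right hrs]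
        have h5 := half_pow_mul r 1
        have h6 : (0 : ℝ) ≤ (1 / 2) ^ r * (1 / 2) ^ s := by positivity
        refine (mul_le_mul_of_nonneg_right h4 h6).trans (le_of_eq ?_)
        linear_combination (1 / 2 : ℝ) ^ s * h5
      · have h4 := card_two_le (n := n) (s := r) hs.1 hs.2
        have h4' : ((univ.filter (fun A : Fin n → Bool => per (n - 1) r A ∧ per (n - 1) s A)).card : ℝ) ≤ 2 ^ (s + 1) := by
          refine le_trans (le_of_eq ?_) h4
          congr 2
          ext A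
          simp only [mem_filter, mem_univ, true_and]
          tauto
        rw [max_eq_left hrs]
        have h5 := half_pow_mul s 1
        have h6 : (0 : ℝ) ≤ (1 / 2) ^ r * (1 / 2) ^ s := by positivity
        refine (mul_le_mul_of_nonneg_right h4' h6).trans (le_of_eq ?_)
        linear_combination (1 / 2 : ℝ) ^ r * h5
    refine (Finset.sum_le_sum h3).trans ?_
    rw [← Finset.mul_sum]
    apply mul_le_mul_of_nonneg_left _ (by norm_num)
    rw [← Finset.sum_Ico_consecutive _ (show 1 ≤ r + 1 by omega) (show r + 1 ≤ n by omega)]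
    have h7 : ∑ s ∈ Ico 1 (r + 1), (1 / 2 : ℝ) ^ (max r s) = (r : ℝ) * (1 / 2) ^ r := by
      rw [Finset.sum_congr rfl (g := fun _ => (1 / 2 : ℝ) ^ r)]
      · simp
      · intro s hs
        rw [mem_Ico] at hs
        rw [max_eq_left (by omega)]
    have h8 : ∑ s ∈ Ico (r + 1) n, (1 / 2 : ℝ) ^ (max r s) = 2 * (1 / 2) ^ (r + 1) - 2 * (1 / 2) ^ n := by
      rw [← geom_Ico (r + 1) n (by omega)]
      apply Finset.sum_congr rfl
      intro s hs
      rw [mem_Ico] at hs
      rw [max_eq_right (by omega)]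
    rw [h7, h8, pow_succ]
    have : (0 : ℝ) ≤ 2 * (1 / 2) ^ n := by positivity
    linarith
  refine (Finset.sum_le_sum h2).trans ?_
  rw [← Finset.mul_sum]
  have := arith_geom_le n
  linarith

lemma trunc_geom (M K : ℕ) : ∑ t ∈ Ico 1 K, (2 : ℝ) ^ (min t M) * (1 / 2) ^ t ≤ M + 1 := by
  have hle : ∀ t, (2 : ℝ) ^ (min t M) * (1 / 2) ^ t ≤ 1 := by
    intro t
    have h1 : (2 : ℝ) ^ (min t M) ≤ 2 ^ t := pow_le_pow_right₀ (by norm_num) (min_le_left _ _)
    have h2 := half_pow_mul t 0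
    simp only [add_zero, pow_zero] at h2
    calc (2 : ℝ) ^ (min t M) * (1 / 2) ^ t ≤ 2 ^ t * (1 / 2) ^ t :=
          mul_le_mul_of_nonneg_right h1 (by positivity)
      _ = 1 := h2
  by_cases hK : K ≤ M + 1
  · have : ∑ t ∈ Ico 1 K, (2 : ℝ) ^ (min t M) * (1 / 2) ^ t ≤ ∑ t ∈ Ico 1 K, (1 : ℝ) :=
      Finset.sum_le_sum (fun t _ => hle t)
    refine this.trans ?_
    simp only [sum_const, Nat.card_Ico, nsmul_eq_mul, mul_one]
    have : ((K - 1 : ℕ) : ℝ) ≤ ((M : ℕ) : ℝ) := by exact_mod_cast (by omega)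
    linarith
  · push Not at hK
    rw [← Finset.sum_Ico_consecutive _ (show 1 ≤ M + 1 by omega) hK.le]
    have h1 : ∑ t ∈ Ico 1 (M + 1), (2 : ℝ) ^ (min t M) * (1 / 2) ^ t ≤ M := by
      refine (Finset.sum_le_sum (fun t _ => hle t)).trans ?_
      simp
    have h2 : ∑ t ∈ Ico (M + 1) K, (2 : ℝ) ^ (min t M) * (1 / 2) ^ t ≤ 1 := by
      have h3 : ∑ t ∈ Ico (M + 1) K, (2 : ℝ) ^ (min t M) * (1 / 2) ^ t =
          2 ^ M * ∑ t ∈ Ico (M + 1) K, (1 / 2 : ℝ) ^ t := by
        rw [Finset.mul_sum]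
        apply Finset.sum_congr rfl
        intro t ht
        rw [mem_Ico] at ht
        rw [min_eq_right (by omega)]
      rw [h3, geom_Ico _ _ hK.le]
      have h4 := half_pow_mul M 0
      simp only [add_zero, pow_zero] at h4
      have h5 : (0 : ℝ) ≤ 2 ^ M * (2 * (1 / 2) ^ K) := by positivity
      have h6 : (2 : ℝ) ^ M * (2 * (1 / 2) ^ (M + 1) - 2 * (1 / 2) ^ K) =
        2 ^ M * (1 / 2) ^ M - 2 ^ M * (2 * (1 / 2) ^ K) := by rw [pow_succ]; ring
      rw [h6, h4]
      linarith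
    linarith

lemma sum_ka (hn : 1 ≤ n) : ∑ A : Fin n → Bool, ka A ≤ 14 := by
  have h1 : ∑ A : Fin n → Bool, ka A = ∑ p ∈ Ico 1 (n + 1), ∑ q ∈ Ico (p + 1) (n + 1),
      ((univ.filter (fun A : Fin n → Bool => per (n - 1) p A ∧ per (n - 1) q A)).card : ℝ) * (1 / 2) ^ q := by
    unfold ka
    rw [Finset.sum_comm, Finset.sum_Ico_Ico_comm']
    apply Finset.sum_congr rfl
    intro q _
    rw [Finset.sum_comm]
    apply Finset.sum_congr rfl
    intro p _
    rw [sum_ind]
  rw [h1, Finset.sum_Ico_succ_top hn]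
  have h2 : ∑ q ∈ Ico (n + 1) (n + 1),
      ((univ.filter (fun A : Fin n → Bool => per (n - 1) n A ∧ per (n - 1) q A)).card : ℝ) * (1 / 2) ^ q = 0 := by
    simp
  rw [h2, add_zero]
  have h3 : ∀ p ∈ Ico 1 n, ∑ q ∈ Ico (p + 1) (n + 1),
      ((univ.filter (fun A : Fin n → Bool => per (n - 1) p A ∧ per (n - 1) q A)).card : ℝ) * (1 / 2) ^ q ≤
      2 * (((p : ℝ) + 1) * (1 / 2) ^ p) + 2 * ((((n - 1 - p : ℕ) : ℝ) + 1) * (1 / 2) ^ (n - 1 - p)) := by
    intro p hp
    rw [mem_Ico] at hp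
    set M := min (n - 1 - p) p with hM
    have h4 : ∑ q ∈ Ico (p + 1) (n + 1),
      ((univ.filter (fun A : Fin n → Bool => per (n - 1) p A ∧ per (n - 1) q A)).card : ℝ) * (1 / 2) ^ q ≤
      ∑ t ∈ Ico 1 (n + 1 - p), (2 * (1 / 2) ^ M) * ((2 : ℝ) ^ (min t M) * (1 / 2) ^ t) := by
      have e1 : Ico (p + 1) (n + 1) = Ico (1 + p) ((n + 1 - p) + p) := by congr 1 <;> omega
      rw [e1, ← Finset.sum_Ico_add' (fun q =>
        ((univ.filter (fun A : Fin n → Bool => per (n - 1) p A ∧ per (n - 1) q A)).card : ℝ) * (1 / 2) ^ q) 1 (n + 1 - p) p]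
      apply Finset.sum_le_sum
      intro t ht
      rw [mem_Ico] at ht
      have h5 := card_two_per (n := n) (p := p) (q := t + p) hp.1 (by omega) (by omega)
      rw [← hM, show t + p - p = t by omega] at h5
      have h6 : ((univ.filter (fun A : Fin n → Bool => per (n - 1) p A ∧ per (n - 1) (t + p) A)).card : ℝ) ≤
        (2 : ℝ) ^ (min t M + (p - M) + 1) := by exact_mod_cast h5
      refine (mul_le_mul_of_nonneg_right h6 (by positivity)).trans (le_of_eq ?_)
      have h7 := half_pow_mul M (p - M)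
      have h8 : M + (p - M) = p := by omega
      rw [h8] at h7
      have h9 := half_pow_mul p 0
      simp only [add_zero, pow_zero] at h9
      have h10 : (2 : ℝ) ^ (p - M) * (1 / 2) ^ p = (1 / 2) ^ M := by
        rw [← h7]
        linear_combination (1 / 2 : ℝ) ^ M * h9
      rw [pow_add, pow_add, pow_add (1 / 2 : ℝ)]
      linear_combination (2 : ℝ) ^ (min t M) * 2 * (1 / 2) ^ t * h10
    refine h4.trans ?_
    rw [← Finset.mul_sum]
    have h5 := trunc_geom M (n + 1 - p)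
    have h6 : (0 : ℝ) ≤ 2 * (1 / 2) ^ M := by positivity
    refine (mul_le_mul_of_nonneg_left h5 h6).trans ?_
    rcases le_total (n - 1 - p) p with h7 | h7
    · have h8 : M = n - 1 - p := min_eq_left h7
      rw [h8]
      have : (0 : ℝ) ≤ 2 * (((p : ℝ) + 1) * (1 / 2) ^ p) := by positivity
      linarith
    · have h8 : M = p := min_eq_right h7
      rw [h8]
      have : (0 : ℝ) ≤ 2 * ((((n - 1 - p : ℕ) : ℝ) + 1) * (1 / 2) ^ (n - 1 - p)) := by positivity
      linarith
  refine (Finset.sum_le_sum h3).trans ?_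
  rw [Finset.sum_add_distrib, ← Finset.mul_sum, ← Finset.mul_sum]
  have h4 := arith_geom_le n
  have h5 := Finset.sum_Ico_reflect (fun k : ℕ => ((k : ℝ) + 1) * (1 / 2 : ℝ) ^ k) 1 (m := n) (n := n - 1) (by omega)
  have h6 := arith_geom_le' (n - 1)
  rw [show n - 1 + 1 - n = 0 by omega, show n - 1 + 1 - 1 = n - 1 by omega] at h5
  rw [h5]
  linarith

lemma card_Ex (hn : 4 ≤ n) : ((univ.filter (fun A : Fin n → Bool => Ex A)).card : ℝ) ≤ 14 := by
  have h1 := card_per (n := n) (m := n) (q := 1) le_rfl (by omega) le_rfl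
  have h2 := card_per (n := n) (m := n) (q := 2) (by omega) (by omega) le_rfl
  have h3 := card_per (n := n) (m := n - 2) (q := 1) le_rfl (by omega) (by omega)
  rw [show n - n = 0 by omega] at h1 h2
  rw [show n - (n - 2) = 2 by omega] at h3
  have h4 : (univ.filter (fun A : Fin n → Bool => Ex A)).card ≤ 14 := by
    have : univ.filter (fun A : Fin n → Bool => Ex A) ⊆
        univ.filter (fun A : Fin n → Bool => per n 1 A) ∪ (univ.filter (fun A : Fin n → Bool => per n 2 A) ∪
          univ.filter (fun A : Fin n → Bool => per (n - 2) 1 A)) := by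
      intro A
      simp only [mem_filter, mem_univ, true_and, mem_union]
      exact fun h => h
    refine (Finset.card_le_card this).trans ?_
    refine (Finset.card_union_le _ _).trans ?_
    have := Finset.card_union_le (univ.filter (fun A : Fin n → Bool => per n 2 A))
          (univ.filter (fun A : Fin n → Bool => per (n - 2) 1 A))
    rw [h1]
    rw [h2, h3] at this
    norm_num at this ⊢
    omega
  exact_mod_cast h4

lemma sum_best_large (hn : 4 ≤ n) :
    |∑ A : Fin n → Bool, best A - (2 / 3) * 2 ^ n - (2 / 3) * n| ≤ 86 := by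
  have h1 : |∑ A : Fin n → Bool, (best A - (2 / 3 + (2 / 9) * mu A))| ≤ 84 := by
    refine (Finset.abs_sum_le_sum_abs _ _).trans ?_
    refine (Finset.sum_le_sum (fun A _ => best_err hn A)).trans ?_
    rw [Finset.sum_add_distrib, Finset.sum_add_distrib, ← Finset.mul_sum, ← Finset.mul_sum]
    have h2 := sum_de_sq (n := n)
    have h3 := sum_ka (n := n) (by omega)
    have h4 := card_Ex hn
    rw [sum_ind]
    linarith
  have h2 : ∑ A : Fin n → Bool, (best A - (2 / 3 + (2 / 9) * mu A)) =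
      ∑ A : Fin n → Bool, best A - ((2 / 3) * 2 ^ n + (2 / 9) * (3 * (n : ℝ) - 5)) := by
    rw [Finset.sum_sub_distrib, Finset.sum_add_distrib, ← Finset.mul_sum, sum_mu (by omega),
      Finset.sum_const, Finset.card_univ, Fintype.card_fun, Fintype.card_bool, Fintype.card_fin,
      nsmul_eq_mul]
    push_cast
    ring
  rw [h2, abs_le] at h1
  rw [abs_le]
  constructor <;> linarith [h1.1, h1.2]

lemma sum_best_small (hn1 : 1 ≤ n) (hn : n < 4) :
    |∑ A : Fin n → Bool, best A - (2 / 3) * 2 ^ n - (2 / 3) * n| ≤ 86 := by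
  have h1 : 0 ≤ ∑ A : Fin n → Bool, best A := Finset.sum_nonneg (fun A _ => best_nonneg hn1 A)
  have h2 : ∑ A : Fin n → Bool, best A ≤ 2 ^ n := by
    refine (Finset.sum_le_sum (fun A _ => best_le_one hn1 A)).trans ?_
    simp
  have h3 : (2 : ℝ) ^ n ≤ 2 ^ 4 := pow_le_pow_right₀ (by norm_num) hn.le
  have h4 : (n : ℝ) ≤ 4 := by exact_mod_cast hn.le
  have h5 : (0 : ℝ) ≤ n := by positivity
  have h6 : (0 : ℝ) < 2 ^ n := by positivity
  rw [abs_le]
  norm_num at h3
  constructor <;> linarith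

theorem sum_best (hn : 1 ≤ n) :
    |∑ A : Fin n → Bool, best A - (2 / 3) * 2 ^ n - (2 / 3) * n| ≤ 86 := by
  by_cases h : 4 ≤ n
  · exact sum_best_large h
  · exact sum_best_small hn (by omega)

end

end Pool.Agent.Lib.MP_988dcd_pr
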